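import Mathlib
import Pool.Agent.Lib.MP_b9b9f8_al.Defs
import Pool.Agent.Lib.MP_b9b9f8_al.Ring

/-! Negative answer to Q1 of MP_b9b9f8_al: there are Burch ideals `I`, `J` of a Noetherian local
ring with `cx_R(k) ≤ 2` and `tcx_R(I, J) ≥ 3`, so the equality `tcx_R(I, J) = cx_R(k)` fails. -/

namespace Pool.Agent.Variants.MP_b9b9f8_al.TorExceeds

open Pool.Agent.Lib.MP_b9b9f8_al

theorem result : ∃ (R : Type) (_ : CommRing R) (_ : IsNoetherianRing R) (_ : IsLocalRing R)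
    (I J : Ideal R), IsBurch I ∧ IsBurch J ∧ I.radical ≠ IsLocalRing.maximalIdeal R ∧
      cxResidue R ≤ 2 ∧ 3 ≤ tcx R (ModuleCat.of R I) (ModuleCat.of R J) := by
  obtain ⟨R, i1, i2, i3, I, h1, h2, h3, h4⟩ := counterexample
  exact ⟨R, i1, i2, i3, I, I, h1, h1, h2, h3, h4⟩

end Pool.Agent.Variants.MP_b9b9f8_al.TorExceeds
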